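import Pool.Agent.H314.BK.C3
import Pool.Agent.H314.BK.C2
import Pool.Agent.H314.BK.B1

set_option autoImplicit false

open MeasureTheory Complex Filter Topology
open scoped ContDiff ComplexConjugate

namespace Pool.Agent.TH241.J218

open BK BK.JB1 BK.JB1.JKI BK.JC2

variable {n : ℕ}

/-- matrix of the Wirtinger derivatives -/
noncomputable def JM {n : ℕ} (Q : En n → En n) (w : En n) : Matrix (Fin n) (Fin n) ℂ :=
  Matrix.of fun j k => dbar k (fun v => Q v j) w

/-- the derivative of the determinant along the identity -/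
theorem det_deriv (M : Matrix (Fin n) (Fin n) ℂ) (T : ℝ) :
    HasDerivAt (fun T : ℝ => (M + (T : ℂ) • (1 : Matrix (Fin n) (Fin n) ℂ)).det)
      ((M + (T : ℂ) • (1 : Matrix (Fin n) (Fin n) ℂ)).adjugate.trace) T := by
  set A : ℝ → Matrix (Fin n) (Fin n) ℂ := fun T => M + (T : ℂ) • (1 : Matrix (Fin n) (Fin n) ℂ)
    with hA
  have h1 : ∀ T, (A T).det = ∑ σ : Equiv.Perm (Fin n), (σ.sign : ℂ) * ∏ i, A T (σ i) i := by
    intro T
    rw [Matrix.det_apply']
  have h2 : ∀ i j, HasDerivAt (fun T : ℝ => A T i j) (if i = j then 1 else 0) T := by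
    intro i j
    have e : (fun T : ℝ => A T i j) = fun T : ℝ => M i j + (T : ℂ) * (if i = j then 1 else 0) := by
      funext T
      simp [hA, Matrix.one_apply]
    rw [e]
    have h3 : HasDerivAt (fun T : ℝ => (T : ℂ)) 1 T := Complex.ofRealCLM.hasDerivAt (x := T)
    simpa using (h3.mul_const (if i = j then (1 : ℂ) else 0)).const_add (M i j)
  have h3 : HasDerivAt (fun T => (A T).det)
      (∑ σ : Equiv.Perm (Fin n), (σ.sign : ℂ) *
        ∑ i, (∏ j ∈ Finset.univ.erase i, A T (σ j) j) * (if σ i = i then 1 else 0)) T := by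
    simp_rw [h1]
    refine HasDerivAt.fun_sum fun σ _ => ?_
    refine HasDerivAt.const_mul _ ?_
    have := HasDerivAt.fun_finsetProd (u := Finset.univ) (f := fun i T => A T (σ i) i)
      (f' := fun i => if σ i = i then (1 : ℂ) else 0) (x := T) (fun i _ => h2 (σ i) i)
    simpa [smul_eq_mul] using this
  have h4 : (A T).adjugate.trace = ∑ σ : Equiv.Perm (Fin n), (σ.sign : ℂ) *
        ∑ i, (∏ j ∈ Finset.univ.erase i, A T (σ j) j) * (if σ i = i then 1 else 0) := by
    have h5 : ∀ i, (A T).adjugate i i = ∑ σ : Equiv.Perm (Fin n), (σ.sign : ℂ) *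
        ((∏ j ∈ Finset.univ.erase i, A T (σ j) j) * (if σ i = i then 1 else 0)) := by
      intro i
      have e1 : (A T).adjugate i i = ((A T).updateCol i (Pi.single i 1)).det := by
        have e2 : (A T).adjugate i i = ((A T).transpose).adjugate i i := by
          rw [← Matrix.adjugate_transpose, Matrix.transpose_apply]
        rw [e2]
        simp only [Matrix.adjugate, Matrix.of_apply, Matrix.transpose_transpose,
          Matrix.cramer_apply]
      rw [e1, Matrix.det_apply']
      refine Finset.sum_congr rfl fun σ _ => ?_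
      congr 1
      rw [← Finset.mul_prod_erase Finset.univ _ (Finset.mem_univ i), mul_comm]
      congr 1
      · refine Finset.prod_congr rfl fun j hj => ?_
        rw [Matrix.updateCol_ne (Finset.ne_of_mem_erase hj)]
      · rw [Matrix.updateCol_self, Pi.single_apply]
    unfold Matrix.trace
    simp only [Matrix.diag_apply]
    simp_rw [h5]
    rw [Finset.sum_comm]
    simp_rw [Finset.mul_sum]
  rw [h4]
  exact h3

theorem entire_smooth {F : En n → ℂ} (hF : Differentiable ℂ F) : ContDiff ℝ ∞ F := by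
  have h1 : F = wG F 1 := by
    funext z
    rw [wG_apply']
    exact (wMV F z 1 one_pos (fun y _ => hF y)).symm
  rw [h1]
  exact (rho_compact one_pos).contDiff_convolution_right _
    hF.continuous.locallyIntegrable (rho_contDiff 1)

theorem det_bound (B : ℝ) : ∃ C : ℝ, 0 ≤ C ∧ ∀ M : Matrix (Fin n) (Fin n) ℂ,
    (∀ i j, ‖M i j‖ ≤ B) → ‖M.det‖ ≤ C ∧ ∀ i j, ‖M.adjugate i j‖ ≤ C := by
  have hK : IsCompact {M : Matrix (Fin n) (Fin n) ℂ | ∀ i j, ‖M i j‖ ≤ B} := by
    have h1 : {M : Matrix (Fin n) (Fin n) ℂ | ∀ i j, ‖M i j‖ ≤ B} =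
        Set.pi Set.univ fun _ : Fin n => Set.pi Set.univ fun _ : Fin n =>
          Metric.closedBall (0 : ℂ) B := by
      ext M
      constructor
      · intro h i _ j _
        exact mem_closedBall_zero_iff.2 (h i j)
      · intro h i j
        exact mem_closedBall_zero_iff.1 (h i trivial j trivial)
    rw [h1]
    exact isCompact_univ_pi fun _ => isCompact_univ_pi fun _ => isCompact_closedBall _ _
  have c1 : Continuous fun M : Matrix (Fin n) (Fin n) ℂ => M.det := continuous_id.matrix_det
  have c2 : ∀ i j, Continuous fun M : Matrix (Fin n) (Fin n) ℂ => M.adjugate i j :=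
    fun i j => continuous_id.matrix_adjugate.matrix_elem i j
  obtain ⟨C1, hC1⟩ := hK.exists_bound_of_continuousOn c1.continuousOn
  have : ∀ i j, ∃ C, ∀ M : Matrix (Fin n) (Fin n) ℂ, (∀ i j, ‖M i j‖ ≤ B) →
      ‖M.adjugate i j‖ ≤ C := by
    intro i j
    obtain ⟨C, hC⟩ := hK.exists_bound_of_continuousOn (c2 i j).continuousOn
    exact ⟨C, fun M hM => hC M hM⟩
  choose C2 hC2 using this
  refine ⟨|C1| + ∑ i, ∑ j, |C2 i j|, by positivity, fun M hM => ⟨?_, fun i j => ?_⟩⟩
  · have h := hC1 M hM
    have h1 : 0 ≤ ∑ i, ∑ j, |C2 i j| := by positivity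
    exact h.trans ((le_abs_self _).trans (by linarith))
  · have h := hC2 i j M hM
    have h1 : |C2 i j| ≤ ∑ i, ∑ j, |C2 i j| := by
      refine le_trans ?_ (Finset.single_le_sum (f := fun i => ∑ j, |C2 i j|)
        (fun _ _ => by positivity) (Finset.mem_univ i))
      exact Finset.single_le_sum (f := fun j => |C2 i j|) (fun _ _ => by positivity)
        (Finset.mem_univ j)
    have h2 : 0 ≤ |C1| := abs_nonneg _
    exact h.trans ((le_abs_self _).trans (by linarith))

/-- the vector field `w ↦ conj (w - z)` -/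
noncomputable def uu (z : En n) (w : En n) : En n := fun j => conj (w j - z j)

theorem uu_smooth (z : En n) : ContDiff ℝ ∞ (uu z) := by
  unfold uu
  rw [contDiff_pi]
  intro j
  exact conj_smooth (by fun_prop)

theorem comp_smooth {Q : En n → En n} (hQ : ContDiff ℝ ∞ Q) (j : Fin n) :
    ContDiff ℝ ∞ (fun v => Q v j) := (contDiff_pi.1 hQ) j

theorem dbar_uu (z : En n) (j k : Fin n) (w : En n) :
    dbar k (fun v => uu z v j) w = if j = k then 1 else 0 := by
  have h1 : ∀ v, fderiv ℝ (fun w : En n => uu z w j) w v = conj (v j) := by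
    intro v
    have e : HasFDerivAt (fun w : En n => uu z w j)
        ((Complex.conjCLE : ℂ →L[ℝ] ℂ).comp
          (ContinuousLinearMap.proj (R := ℝ) (φ := fun _ : Fin n => ℂ) j)) w := by
      have e1 : HasFDerivAt (fun w : En n => w j - z j)
          (ContinuousLinearMap.proj (R := ℝ) (φ := fun _ : Fin n => ℂ) j) w :=
        ((ContinuousLinearMap.proj (R := ℝ) (φ := fun _ : Fin n => ℂ) j).hasFDerivAt).sub_const _
      exact (Complex.conjCLE : ℂ →L[ℝ] ℂ).hasFDerivAt.comp w e1
    rw [e.fderiv]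
    simp
  unfold dbar
  rw [h1, h1]
  by_cases hjk : j = k
  · subst hjk
    simp
    norm_num
  · simp [hjk]

theorem JM_uu (z w : En n) : JM (uu z) w = 1 := by
  ext j k
  simp only [JM, Matrix.of_apply, Matrix.one_apply]
  exact dbar_uu z j k w

/-- the perturbed field -/
noncomputable def QT (Q : En n → En n) (z : En n) (T : ℝ) (w : En n) : En n :=
  fun j => Q w j + T * uu z w j

theorem QT_smooth {Q : En n → En n} (hQ : ContDiff ℝ ∞ Q) (z : En n) (T : ℝ) :
    ContDiff ℝ ∞ (QT Q z T) := by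
  unfold QT
  rw [contDiff_pi]
  intro j
  exact (comp_smooth hQ j).add (contDiff_const.mul (comp_smooth (uu_smooth z) j))

theorem JM_QT {Q : En n → En n} (hQ : ContDiff ℝ ∞ Q) (z : En n) (T : ℝ) (w : En n) :
    JM (QT Q z T) w = JM Q w + (T : ℂ) • (1 : Matrix (Fin n) (Fin n) ℂ) := by
  ext j k
  simp only [JM, Matrix.of_apply, Matrix.add_apply, Matrix.smul_apply, Matrix.one_apply,
    smul_eq_mul]
  have h := dbar_lin (comp_smooth hQ j) (comp_smooth (uu_smooth z) j) 1 (T : ℂ) k w
  simp only [one_mul] at h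
  unfold QT
  rw [h, dbar_uu]

/-- the exponent -/
noncomputable def SS (P : En n → En n) (z w : En n) : ℂ := ∑ j, P w j * (z j - w j)

theorem SS_smooth {P : En n → En n} (hP : ContDiff ℝ ∞ P) (z : En n) : ContDiff ℝ ∞ (SS P z) := by
  unfold SS
  refine ContDiff.sum fun j _ => ?_
  exact (comp_smooth hP j).mul (by fun_prop)

theorem dbar_hol {h : En n → ℂ} (hh : Differentiable ℂ h) (k : Fin n) (w : En n) :
    dbar k h w = 0 := dbar_of_diffAt h w (hh w) k

theorem dbar_sum {ι : Type} (s : Finset ι) (f : ι → En n → ℂ) (hf : ∀ i, ContDiff ℝ ∞ (f i))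
    (k : Fin n) (w : En n) : dbar k (fun v => ∑ i ∈ s, f i v) w = ∑ i ∈ s, dbar k (f i) w := by
  classical
  induction s using Finset.induction_on with
  | empty =>
    simp only [Finset.sum_empty]
    exact dbar_hol (differentiable_const 0) k w
  | insert a s ha ih =>
    simp only [Finset.sum_insert ha]
    have h := dbar_lin (hf a) (ContDiff.sum (s := s) fun i _ => hf i) 1 1 k w
    simp only [one_mul] at h
    rw [h, ih]

theorem dbar_SS {P : En n → En n} (hP : ContDiff ℝ ∞ P) (z : En n) (k : Fin n) (w : En n) :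
    dbar k (SS P z) w = ∑ l, JM P w l k * (z l - w l) := by
  unfold SS
  have h1 : ∀ j : Fin n, Differentiable ℂ (fun w : En n => z j - w j) := fun j => by fun_prop
  have h2 : ∀ j : Fin n, ContDiff ℝ ∞ (fun w : En n => z j - w j) := fun j => by fun_prop
  rw [dbar_sum Finset.univ (fun j w => P w j * (z j - w j))
    (fun j => (comp_smooth hP j).mul (h2 j))]
  refine Finset.sum_congr rfl fun j _ => ?_
  rw [dbar_mul (comp_smooth hP j) (h2 j), dbar_hol (h1 j), mul_zero, add_zero]
  rfl

theorem dbar_cexp {g : En n → ℂ} (hg : ContDiff ℝ ∞ g) (k : Fin n) (w : En n) :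
    dbar k (fun v => cexp (g v)) w = cexp (g w) * dbar k g w := by
  have h1 : HasFDerivAt (fun v => cexp (g v)) (cexp (g w) • fderiv ℝ g w) w :=
    ((smooth_diff hg) w).hasFDerivAt.cexp
  unfold dbar
  rw [h1.fderiv]
  simp
  ring

/-- `F exp (Σ P_j (z_j - w_j))` -/
noncomputable def EE (F : En n → ℂ) (P : En n → En n) (z w : En n) : ℂ := F w * cexp (SS P z w)

theorem EE_smooth {F : En n → ℂ} (hF : Differentiable ℂ F) {P : En n → En n}
    (hP : ContDiff ℝ ∞ P) (z : En n) : ContDiff ℝ ∞ (EE F P z) :=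
  (entire_smooth hF).mul (SS_smooth hP z).cexp

theorem dbar_EE {F : En n → ℂ} (hF : Differentiable ℂ F) {P : En n → En n}
    (hP : ContDiff ℝ ∞ P) (z : En n) (k : Fin n) (w : En n) :
    dbar k (EE F P z) w = EE F P z w * ∑ l, JM P w l k * (z l - w l) := by
  unfold EE
  rw [dbar_mul (entire_smooth hF) (SS_smooth hP z).cexp, dbar_hol hF,
    dbar_cexp (SS_smooth hP z), dbar_SS hP]
  ring

end Pool.Agent.TH241.J218
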