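import Pool.Agent.TH241.J218.A

set_option autoImplicit false

open MeasureTheory Complex Filter Topology
open scoped ContDiff ComplexConjugate

namespace Pool.Agent.TH241.J218

open BK BK.JB1 BK.JB1.JKI BK.JC2

variable {n : ℕ}

/-- the square of the Euclidean distance -/
noncomputable def nsq (z w : En n) : ℝ := ∑ j, ‖w j - z j‖ ^ 2

theorem nsq_nonneg (z w : En n) : 0 ≤ nsq z w := Finset.sum_nonneg fun _ _ => by positivity

theorem nsq_cont (z : En n) : Continuous (nsq z) := by
  unfold nsq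
  fun_prop

theorem nsq_eq (z w : En n) : ∑ j, uu z w j * (z j - w j) = -(nsq z w : ℂ) := by
  unfold nsq uu
  push_cast
  rw [← Finset.sum_neg_distrib]
  refine Finset.sum_congr rfl fun j _ => ?_
  rw [← Complex.conj_mul']
  ring

theorem SS_QT (Q : En n → En n) (z : En n) (T : ℝ) (w : En n) :
    SS (QT Q z T) z w = SS Q z w - T * nsq z w := by
  unfold SS QT
  have h := nsq_eq z w
  have e : ∑ j, (Q w j + T * uu z w j) * (z j - w j) =
      ∑ j, Q w j * (z j - w j) + T * ∑ j, uu z w j * (z j - w j) := by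
    rw [Finset.mul_sum, ← Finset.sum_add_distrib]
    refine Finset.sum_congr rfl fun j _ => ?_
    ring
  rw [e, h]
  ring

theorem EE_QT (F : En n → ℂ) (Q : En n → En n) (z : En n) (T : ℝ) (w : En n) :
    EE F (QT Q z T) z w = EE F Q z w * cexp (-(T * nsq z w)) := by
  unfold EE
  rw [SS_QT, sub_eq_add_neg, Complex.exp_add]
  ring

theorem EE_QT_le (F : En n → ℂ) (Q : En n → En n) (z : En n) {T : ℝ} (hT : 0 ≤ T) (w : En n) :
    ‖EE F (QT Q z T) z w‖ ≤ ‖EE F Q z w‖ := by
  rw [EE_QT, norm_mul]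
  have h : ‖cexp (-(T * nsq z w))‖ ≤ 1 := by
    rw [Complex.norm_exp]
    have e : (-((T : ℂ) * (nsq z w : ℂ))).re = -(T * nsq z w) := by
      rw [← Complex.ofReal_mul, Complex.neg_re, Complex.ofReal_re]
    rw [e, Real.exp_le_one_iff]
    have := mul_nonneg hT (nsq_nonneg z w)
    linarith
  calc ‖EE F Q z w‖ * ‖cexp (-(T * nsq z w))‖ ≤ ‖EE F Q z w‖ * 1 := by gcongr
    _ = ‖EE F Q z w‖ := mul_one _

/-- the shifted Jacobian matrix -/
noncomputable def MT (Q : En n → En n) (T : ℝ) (w : En n) : Matrix (Fin n) (Fin n) ℂ :=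
  JM Q w + (T : ℂ) • (1 : Matrix (Fin n) (Fin n) ℂ)

/-- the integrand -/
noncomputable def Th (F : En n → ℂ) (Q : En n → En n) (z : En n) (T : ℝ) (w : En n) : ℂ :=
  EE F Q z w * cexp (-(T * nsq z w)) * (MT Q T w).det

/-- its derivative in `T` -/
noncomputable def Th' (F : En n → ℂ) (Q : En n → En n) (z : En n) (T : ℝ) (w : En n) : ℂ :=
  EE F Q z w * cexp (-(T * nsq z w)) *
    (-(nsq z w : ℂ) * (MT Q T w).det + (MT Q T w).adjugate.trace)

theorem Th_deriv (F : En n → ℂ) (Q : En n → En n) (z : En n) (T : ℝ) (w : En n) :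
    HasDerivAt (fun T => Th F Q z T w) (Th' F Q z T w) T := by
  unfold Th Th' MT
  have h1 : HasDerivAt (fun T : ℝ => (T : ℂ)) 1 T := Complex.ofRealCLM.hasDerivAt (x := T)
  have h2 : HasDerivAt (fun T : ℝ => cexp (-((T : ℂ) * (nsq z w : ℂ))))
      (cexp (-((T : ℂ) * (nsq z w : ℂ))) * (-(1 * (nsq z w : ℂ)))) T :=
    ((h1.mul_const (nsq z w : ℂ)).neg).cexp
  have h3 := (h2.const_mul (EE F Q z w)).mul (det_deriv (JM Q w) T)
  convert! h3 using 1
  ring

/-- the vector field of the homotopy -/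
noncomputable def VV (F : En n → ℂ) (Q : En n → En n) (z : En n) (T : ℝ) (k : Fin n) (w : En n) :
    ℂ := EE F (QT Q z T) z w * ∑ j, (JM (QT Q z T) w).adjugate k j * uu z w j

theorem JM_elem_smooth {Q : En n → En n} (hQ : ContDiff ℝ ∞ Q) (i j : Fin n) :
    ContDiff ℝ ∞ (fun w => JM Q w i j) := dbar_smooth (comp_smooth hQ i) j

theorem det_smooth {A : En n → Matrix (Fin n) (Fin n) ℂ}
    (hA : ∀ i j, ContDiff ℝ ∞ (fun w => A w i j)) : ContDiff ℝ ∞ (fun w => (A w).det) := by
  simp_rw [Matrix.det_apply']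
  refine ContDiff.sum fun σ _ => contDiff_const.mul ?_
  exact contDiff_prod fun i _ => hA _ _

theorem adj_smooth {A : En n → Matrix (Fin n) (Fin n) ℂ}
    (hA : ∀ i j, ContDiff ℝ ∞ (fun w => A w i j)) (i j : Fin n) :
    ContDiff ℝ ∞ (fun w => (A w).adjugate i j) := by
  simp_rw [Matrix.adjugate_apply]
  refine det_smooth fun a b => ?_
  by_cases h : a = j
  · subst h
    simp only [Matrix.updateRow_self]
    exact contDiff_const
  · simp only [Matrix.updateRow_ne h]
    exact hA a b

theorem VV_smooth {F : En n → ℂ} (hF : Differentiable ℂ F) {Q : En n → En n}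
    (hQ : ContDiff ℝ ∞ Q) (z : En n) (T : ℝ) (k : Fin n) : ContDiff ℝ ∞ (VV F Q z T k) := by
  unfold VV
  refine (EE_smooth hF (QT_smooth hQ z T) z).mul (ContDiff.sum fun j _ => ?_)
  exact (adj_smooth (fun i j => JM_elem_smooth (QT_smooth hQ z T) i j) k j).mul
    (comp_smooth (uu_smooth z) j)

/-- the Piola identity (hypothesis) -/
def Piola (n : ℕ) : Prop :=
  ∀ (Q : En n → En n), ContDiff ℝ ∞ Q → ∀ (u : En n → En n), ContDiff ℝ ∞ u →
    ∀ (E : En n → ℂ), ContDiff ℝ ∞ E → ∀ w : En n,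
    ∑ k, dbar k (fun v => E v * ∑ j, (JM Q v).adjugate k j * u v j) w =
      ∑ k, dbar k E w * (∑ j, (JM Q w).adjugate k j * u w j) +
        E w * ((JM Q w).adjugate * JM u w).trace

theorem div_VV (hp : Piola n) {F : En n → ℂ} (hF : Differentiable ℂ F) {Q : En n → En n}
    (hQ : ContDiff ℝ ∞ Q) (z : En n) (T : ℝ) (w : En n) :
    ∑ k, dbar k (VV F Q z T k) w = Th' F Q z T w := by
  have h := hp (QT Q z T) (QT_smooth hQ z T) (uu z) (uu_smooth z) (EE F (QT Q z T) z)
    (EE_smooth hF (QT_smooth hQ z T) z) w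
  unfold VV
  rw [h, JM_uu, mul_one]
  simp_rw [dbar_EE hF (QT_smooth hQ z T) z]
  set M := JM (QT Q z T) w with hM
  have hM2 : M = MT Q T w := JM_QT hQ z T w
  have e1 : ∑ k, EE F (QT Q z T) z w * (∑ l, M l k * (z l - w l)) *
      (∑ j, M.adjugate k j * uu z w j) = EE F (QT Q z T) z w * (M.det * -(nsq z w : ℂ)) := by
    have e2 : ∀ k, (∑ l, M l k * (z l - w l)) = Matrix.vecMul (fun l => z l - w l) M k := by
      intro k
      simp only [Matrix.vecMul, dotProduct]
      exact Finset.sum_congr rfl fun l _ => mul_comm _ _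
    have e3 : ∀ k, (∑ j, M.adjugate k j * uu z w j) = Matrix.mulVec M.adjugate (uu z w) k := by
      intro k
      rfl
    simp_rw [e2, e3, mul_assoc]
    rw [← Finset.mul_sum]
    congr 1
    have e4 : ∑ k, Matrix.vecMul (fun l => z l - w l) M k * Matrix.mulVec M.adjugate (uu z w) k =
        dotProduct (Matrix.vecMul (fun l => z l - w l) M) (Matrix.mulVec M.adjugate (uu z w)) := rfl
    rw [e4, ← Matrix.dotProduct_mulVec, Matrix.mulVec_mulVec, Matrix.mul_adjugate,
      Matrix.smul_mulVec, Matrix.one_mulVec, dotProduct_smul, smul_eq_mul]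
    congr 1
    rw [← nsq_eq]
    simp only [dotProduct]
    exact Finset.sum_congr rfl fun l _ => mul_comm _ _
  rw [e1, hM2, EE_QT]
  unfold Th'
  ring

/-- integral of a derivative -/
theorem int_dbar {a : En n → ℂ} (ha : TT a) (k : Fin n) : ∫ x, dbar k a x = 0 := by
  have h1 : ∀ w : En n, ∫ x, Dv w a x = 0 := by
    intro w
    have h2 := integral_mul_fderiv_eq_neg_fderiv_mul_of_integrable (μ := (volume : Measure (En n)))
      (f := a) (g := fun _ => (1 : ℂ)) (v := w) ?_ ?_ ?_ ?_ ?_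
    · simp only [fderiv_fun_const, Pi.zero_apply, zero_apply, mul_zero,
        integral_zero, mul_one] at h2
      unfold Dv
      exact neg_eq_zero.1 h2.symm
    · simp only [mul_one]
      exact (Dv_smooth ha.sm w).continuous.integrable_of_hasCompactSupport (Dv_compact ha.cp w)
    · simp
    · simp only [mul_one]
      exact ha.sm.continuous.integrable_of_hasCompactSupport ha.cp
    · intro x _
      exact (smooth_diff ha.sm) x
    · intro x _
      exact differentiableAt_const _
  have hi : ∀ w : En n, Integrable (fun x => Dv w a x) := fun w =>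
    (Dv_smooth ha.sm w).continuous.integrable_of_hasCompactSupport (Dv_compact ha.cp w)
  rw [dbar_eq, integral_const_mul, integral_add (hi _) ((hi _).const_mul _), integral_const_mul,
    h1, h1]
  simp

theorem cut_ibp {a V : En n → ℂ} (ha : TT a) (hV : ContDiff ℝ ∞ V) (k : Fin n) :
    ∫ x, a x * dbar k V x = - ∫ x, dbar k a x * V x := by
  have h1 : TT (fun x => a x * V x) := ⟨ha.sm.mul hV, ha.cp.mul_right⟩
  have h2 := int_dbar h1 k
  have h3 : ∀ x, dbar k (fun x => a x * V x) x = dbar k a x * V x + a x * dbar k V x :=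
    fun x => dbar_mul ha.sm hV k x
  simp_rw [h3] at h2
  rw [integral_add ((ha.dbar k).integrable hV.continuous)
    (ha.integrable (dbar_smooth hV k).continuous)] at h2
  exact eq_neg_of_add_eq_zero_right h2

end Pool.Agent.TH241.J218
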