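import Pool.Agent.TH241.J218.B

set_option autoImplicit false

open MeasureTheory Complex Filter Topology
open scoped ContDiff ComplexConjugate

namespace Pool.Agent.TH241.J218

open BK BK.JB1 BK.JB1.JKI BK.JC2

variable {n : ℕ}

/-- the cutoff -/
noncomputable def kap (R : ℝ) (w : En n) : ℂ := ((wP (R⁻¹ • w) : ℝ) : ℂ)

theorem kap_TT {R : ℝ} (hR : 0 < R) : TT (kap R : En n → ℂ) := by
  constructor
  · exact Complex.ofRealCLM.contDiff.comp (wP_contDiff.comp (contDiff_const_smul R⁻¹))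
  · have h1 : HasCompactSupport (fun w : En n => wP (R⁻¹ • w)) :=
      wP_compact.comp_homeomorph (Homeomorph.smulOfNeZero R⁻¹ (inv_ne_zero hR.ne'))
    exact h1.comp_left (g := fun x : ℝ => (x : ℂ)) Complex.ofReal_zero

theorem kap_le (R : ℝ) (w : En n) : ‖kap R w‖ ≤ 1 := by
  unfold kap
  rw [Complex.norm_real, Real.norm_eq_abs, abs_of_nonneg (wP_nonneg _)]
  exact wP_le_one _

theorem kap_tendsto (w : En n) : Tendsto (fun N : ℕ => kap ((N : ℝ) + 1) w) atTop (𝓝 1) := by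
  have h0 : wP (0 : En n) = 1 := by
    unfold wP wN
    apply Real.smoothTransition.one_of_one_le
    simp
  have h1 : Tendsto (fun N : ℕ => ((N : ℝ) + 1)⁻¹ • w) atTop (𝓝 ((0 : ℝ) • w)) := by
    refine Tendsto.smul_const ?_ w
    have := tendsto_one_div_add_atTop_nhds_zero_nat (𝕜 := ℝ)
    simpa [one_div] using this
  rw [zero_smul] at h1
  have h2 : Tendsto (fun N : ℕ => wP (((N : ℝ) + 1)⁻¹ • w)) atTop (𝓝 (wP (0 : En n))) :=
    (wP_contDiff.continuous.tendsto _).comp h1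
  rw [h0] at h2
  have h3 := (Complex.continuous_ofReal.tendsto (1 : ℝ)).comp h2
  rw [Complex.ofReal_one] at h3
  exact h3

theorem kap_dbar : ∃ M : ℝ, 0 ≤ M ∧ ∀ R : ℝ, 0 < R → ∀ (k : Fin n) (w : En n),
    ‖dbar k (kap R) w‖ ≤ M / R := by
  have hc : Continuous (fderiv ℝ (wP : En n → ℝ)) :=
    (wP_contDiff (n := n)).continuous_fderiv (by norm_num)
  obtain ⟨M, hM⟩ := (wP_compact (n := n)).fderiv (𝕜 := ℝ) |>.exists_bound_of_continuous hc
  refine ⟨M, (norm_nonneg _).trans (hM 0), fun R hR k w => ?_⟩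
  have h1 : ∀ v : En n, ‖v‖ ≤ 1 → ‖fderiv ℝ (kap R) w v‖ ≤ M / R := by
    intro v hv
    have e1 : HasFDerivAt (fun w : En n => R⁻¹ • w) (R⁻¹ • ContinuousLinearMap.id ℝ (En n)) w :=
      (hasFDerivAt_id w).const_smul R⁻¹
    have e2 : HasFDerivAt (wP : En n → ℝ) (fderiv ℝ wP (R⁻¹ • w)) (R⁻¹ • w) :=
      ((wP_contDiff (n := n)).differentiable (by norm_num) _).hasFDerivAt
    have e3 : HasFDerivAt (kap R : En n → ℂ) (Complex.ofRealCLM.comp
        ((fderiv ℝ wP (R⁻¹ • w)).comp (R⁻¹ • ContinuousLinearMap.id ℝ (En n)))) w :=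
      Complex.ofRealCLM.hasFDerivAt.comp w (e2.comp w e1)
    rw [e3.fderiv]
    simp only [ContinuousLinearMap.comp_apply, Complex.ofRealCLM_apply, Complex.norm_real]
    have e4 : (R⁻¹ • ContinuousLinearMap.id ℝ (En n)) v = R⁻¹ • v := by simp
    rw [e4, map_smul, norm_smul, norm_inv, Real.norm_of_nonneg hR.le, inv_mul_eq_div]
    gcongr
    calc ‖fderiv ℝ wP (R⁻¹ • w) v‖ ≤ ‖fderiv ℝ wP (R⁻¹ • w)‖ * ‖v‖ :=
          ContinuousLinearMap.le_opNorm _ _
      _ ≤ M * 1 := mul_le_mul (hM _) hv (norm_nonneg _) ((norm_nonneg _).trans (hM 0))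
      _ = M := mul_one _
  have hs1 : ‖(Pi.single k 1 : En n)‖ ≤ 1 := by
    rw [pi_norm_le_iff_of_nonneg zero_le_one]
    intro i
    rw [Pi.single_apply]
    split_ifs <;> simp
  have hsI : ‖(Pi.single k I : En n)‖ ≤ 1 := by
    rw [pi_norm_le_iff_of_nonneg zero_le_one]
    intro i
    rw [Pi.single_apply]
    split_ifs <;> simp
  unfold dbar
  rw [norm_mul]
  have h2 : ‖(1 / 2 : ℂ)‖ = 1 / 2 := by simp
  rw [h2]
  have h3 : ‖fderiv ℝ (kap R) w (Pi.single k 1) + I * fderiv ℝ (kap R) w (Pi.single k I)‖ ≤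
      M / R + M / R := by
    refine (norm_add_le _ _).trans (add_le_add (h1 _ hs1) ?_)
    rw [norm_mul, Complex.norm_I, one_mul]
    exact h1 _ hsI
  linarith

theorem MT_bound {Q : En n → En n} {B : ℝ} (hJ : ∀ w j k, ‖JM Q w j k‖ ≤ B) (T : ℝ) (w : En n)
    (i j : Fin n) : ‖MT Q T w i j‖ ≤ |B| + |T| := by
  unfold MT
  rw [Matrix.add_apply, Matrix.smul_apply]
  refine (norm_add_le _ _).trans (add_le_add ((hJ w i j).trans (le_abs_self _)) ?_)
  rw [smul_eq_mul, norm_mul, Complex.norm_real, Real.norm_eq_abs]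
  have : ‖(1 : Matrix (Fin n) (Fin n) ℂ) i j‖ ≤ 1 := by
    rw [Matrix.one_apply]
    split_ifs <;> simp
  calc |T| * ‖(1 : Matrix (Fin n) (Fin n) ℂ) i j‖ ≤ |T| * 1 := by gcongr
    _ = |T| := mul_one _

theorem uu_le (z w : En n) (j : Fin n) : ‖uu z w j‖ ≤ ‖w‖ + ‖z‖ := by
  unfold uu
  rw [RCLike.norm_conj]
  exact (norm_sub_le _ _).trans (add_le_add (norm_le_pi_norm w j) (norm_le_pi_norm z j))

theorem VV_bound {Q : En n → En n} (hQ : ContDiff ℝ ∞ Q) {B : ℝ}
    (hJ : ∀ w j k, ‖JM Q w j k‖ ≤ B) (F : En n → ℂ) (z : En n) (T : ℝ) :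
    ∃ C : ℝ, 0 ≤ C ∧ ∀ s ∈ Set.Icc 0 T, ∀ k w,
      ‖VV F Q z s k w‖ ≤ C * ((1 + ‖w‖) * ‖EE F Q z w‖) := by
  obtain ⟨C1, hC1, h1⟩ := det_bound (n := n) (|B| + |T|)
  refine ⟨n * (C1 * (1 + ‖z‖)), by positivity, fun s hs k w => ?_⟩
  have h2 : ∀ i j, ‖MT Q s w i j‖ ≤ |B| + |T| := by
    intro i j
    refine (MT_bound hJ s w i j).trans ?_
    have : |s| ≤ |T| := by
      rw [abs_of_nonneg hs.1, abs_of_nonneg (hs.1.trans hs.2)]
      exact hs.2
    linarith
  have h3 := (h1 _ h2).2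
  unfold VV
  rw [norm_mul]
  have h4 : ‖∑ j, (JM (QT Q z s) w).adjugate k j * uu z w j‖ ≤ n * (C1 * (1 + ‖z‖)) * (1 + ‖w‖) := by
    refine (norm_sum_le _ _).trans ?_
    have h5 : ∀ j ∈ (Finset.univ : Finset (Fin n)),
        ‖(JM (QT Q z s) w).adjugate k j * uu z w j‖ ≤ C1 * (1 + ‖z‖) * (1 + ‖w‖) := by
      intro j _
      rw [norm_mul, JM_QT hQ]
      have h6 : ‖w‖ + ‖z‖ ≤ (1 + ‖z‖) * (1 + ‖w‖) := by
        have := norm_nonneg w
        have := norm_nonneg z
        nlinarith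
      calc ‖(MT Q s w).adjugate k j‖ * ‖uu z w j‖ ≤ C1 * ((1 + ‖z‖) * (1 + ‖w‖)) :=
            mul_le_mul (h3 k j) ((uu_le z w j).trans h6) (norm_nonneg _) hC1
        _ = C1 * (1 + ‖z‖) * (1 + ‖w‖) := by ring
    refine (Finset.sum_le_sum h5).trans (le_of_eq ?_)
    rw [Finset.sum_const, Finset.card_univ, Fintype.card_fin, nsmul_eq_mul]
    ring
  calc ‖EE F (QT Q z s) z w‖ * ‖∑ j, (JM (QT Q z s) w).adjugate k j * uu z w j‖
      ≤ ‖EE F Q z w‖ * (n * (C1 * (1 + ‖z‖)) * (1 + ‖w‖)) :=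
        mul_le_mul (EE_QT_le F Q z hs.1 w) h4 (norm_nonneg _) (norm_nonneg _)
    _ = _ := by ring

theorem Th_bound {Q : En n → En n} {B : ℝ}
    (hJ : ∀ w j k, ‖JM Q w j k‖ ≤ B) (F : En n → ℂ) (z : En n) (T : ℝ) (hT : 0 ≤ T) :
    ∃ C : ℝ, 0 ≤ C ∧ ∀ w, ‖Th F Q z T w‖ ≤ C * ((1 + ‖w‖) * ‖EE F Q z w‖) := by
  obtain ⟨C1, hC1, h1⟩ := det_bound (n := n) (|B| + |T|)
  refine ⟨C1, hC1, fun w => ?_⟩
  have h2 := (h1 _ (MT_bound hJ T w)).1
  have h3 := EE_QT_le F Q z hT w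
  rw [EE_QT] at h3
  unfold Th
  rw [norm_mul]
  calc _ ≤ ‖EE F Q z w‖ * C1 := mul_le_mul h3 h2 (norm_nonneg _) (norm_nonneg _)
    _ = C1 * (1 * ‖EE F Q z w‖) := by ring
    _ ≤ C1 * ((1 + ‖w‖) * ‖EE F Q z w‖) := by
        gcongr
        have := norm_nonneg w
        linarith

theorem MT_cont {Q : En n → En n} (hQ : ContDiff ℝ ∞ Q) :
    Continuous (fun p : ℝ × En n => MT Q p.1 p.2) := by
  unfold MT
  refine Continuous.add ?_ ?_
  · refine continuous_matrix fun i j => ?_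
    exact (JM_elem_smooth hQ i j).continuous.comp continuous_snd
  · exact (Complex.continuous_ofReal.comp continuous_fst).smul continuous_const

theorem EE_cont {F : En n → ℂ} (hF : Differentiable ℂ F) {Q : En n → En n}
    (hQ : ContDiff ℝ ∞ Q) (z : En n) : Continuous (EE F Q z) := (EE_smooth hF hQ z).continuous

theorem Th_cont {F : En n → ℂ} (hF : Differentiable ℂ F) {Q : En n → En n}
    (hQ : ContDiff ℝ ∞ Q) (z : En n) : Continuous (fun p : ℝ × En n => Th F Q z p.1 p.2) := by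
  unfold Th
  have h1 := (EE_cont hF hQ z).comp (continuous_snd (X := ℝ) (Y := En n))
  have h2 := (nsq_cont z).comp (continuous_snd (X := ℝ) (Y := En n))
  refine (h1.mul ?_).mul (MT_cont hQ).matrix_det
  refine Complex.continuous_exp.comp (Continuous.neg ?_)
  exact (Complex.continuous_ofReal.comp continuous_fst).mul (Complex.continuous_ofReal.comp h2)

theorem Th'_cont {F : En n → ℂ} (hF : Differentiable ℂ F) {Q : En n → En n}
    (hQ : ContDiff ℝ ∞ Q) (z : En n) : Continuous (fun p : ℝ × En n => Th' F Q z p.1 p.2) := by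
  unfold Th'
  have h1 := (EE_cont hF hQ z).comp (continuous_snd (X := ℝ) (Y := En n))
  have h2 := (nsq_cont z).comp (continuous_snd (X := ℝ) (Y := En n))
  refine (h1.mul ?_).mul (Continuous.add ?_ ?_)
  · refine Complex.continuous_exp.comp (Continuous.neg ?_)
    exact (Complex.continuous_ofReal.comp continuous_fst).mul (Complex.continuous_ofReal.comp h2)
  · exact (Complex.continuous_ofReal.comp h2).neg.mul (MT_cont hQ).matrix_det
  · exact (MT_cont hQ).matrix_adjugate.matrix_trace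

/-- the truncated integral is differentiable in the parameter -/
theorem g_deriv {F : En n → ℂ} (hF : Differentiable ℂ F) {Q : En n → En n}
    (hQ : ContDiff ℝ ∞ Q) (z : En n) {R : ℝ} (hR : 0 < R) (T : ℝ) :
    HasDerivAt (fun T => ∫ w, kap R w * Th F Q z T w) (∫ w, kap R w * Th' F Q z T w) T := by
  have hk := kap_TT (n := n) hR
  have hcT : ∀ T, Continuous (Th F Q z T) := fun T =>
    (Th_cont hF hQ z).comp (Continuous.prodMk_right T)
  have hcT' : ∀ T, Continuous (Th' F Q z T) := fun T =>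
    (Th'_cont hF hQ z).comp (Continuous.prodMk_right T)
  set K := tsupport (kap R : En n → ℂ) with hK
  have hKc : IsCompact K := hk.cp
  have hjc : Continuous (fun p : ℝ × En n => kap R p.2 * Th' F Q z p.1 p.2) :=
    (hk.sm.continuous.comp continuous_snd).mul (Th'_cont hF hQ z)
  obtain ⟨C, hC⟩ := ((isCompact_Icc (a := T - 1) (b := T + 1)).prod hKc).exists_bound_of_continuousOn
    hjc.continuousOn
  refine (hasDerivAt_integral_of_dominated_loc_of_deriv_le (s := Set.Icc (T - 1) (T + 1))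
    (bound := K.indicator fun _ => C) (F := fun T w => kap R w * Th F Q z T w)
    (F' := fun T w => kap R w * Th' F Q z T w) (x₀ := T) ?_ ?_ ?_ ?_ ?_ ?_ ?_).2
  · exact Icc_mem_nhds (by linarith) (by linarith)
  · exact Eventually.of_forall fun s =>
      (hk.sm.continuous.mul (hcT s)).aestronglyMeasurable
  · exact hk.integrable (hcT T)
  · exact (hk.sm.continuous.mul (hcT' T)).aestronglyMeasurable
  · refine Eventually.of_forall fun w s hs => ?_
    by_cases hw : w ∈ K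
    · rw [Set.indicator_of_mem hw]
      exact hC (s, w) ⟨hs, hw⟩
    · rw [Set.indicator_of_notMem hw, image_eq_zero_of_notMem_tsupport hw, zero_mul, norm_zero]
  · exact (integrable_indicator_iff hKc.measurableSet).2
      (integrableOn_const hKc.measure_lt_top.ne)
  · exact Eventually.of_forall fun w s _ => (Th_deriv F Q z s w).const_mul _

end Pool.Agent.TH241.J218
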