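import Pool.Agent.TH241.J218.C

set_option autoImplicit false

open MeasureTheory Complex Filter Topology
open scoped ContDiff ComplexConjugate

namespace Pool.Agent.TH241.J218

open BK BK.JB1 BK.JB1.JKI BK.JC2

variable {n : ℕ}

/-- the integral does not depend on `T` -/
theorem homotopy (hp : Piola n) {F : En n → ℂ} (hF : Differentiable ℂ F) {Q : En n → En n}
    (hQ : ContDiff ℝ ∞ Q) {B : ℝ} (hJ : ∀ w j k, ‖JM Q w j k‖ ≤ B) (z : En n)
    (hint : Integrable (fun w => (1 + ‖w‖) * ‖EE F Q z w‖)) (T : ℝ) (hT : 0 ≤ T) :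
    ∫ w, Th F Q z T w = ∫ w, Th F Q z 0 w := by
  obtain ⟨M, hM, hMk⟩ := kap_dbar (n := n)
  obtain ⟨C, hC, hV⟩ := VV_bound hQ hJ F z T
  set I0 := ∫ w, (1 + ‖w‖) * ‖EE F Q z w‖ with hI0
  -- the derivative of the truncated integral
  have hder : ∀ R : ℝ, 0 < R → ∀ s ∈ Set.Icc 0 T,
      ‖∫ w, kap R w * Th' F Q z s w‖ ≤ n * (M / R * C * I0) := by
    intro R hR s hs
    have hk := kap_TT (n := n) hR
    have e1 : ∫ w, kap R w * Th' F Q z s w = ∑ k, -∫ w, dbar k (kap R) w * VV F Q z s k w := by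
      simp_rw [← div_VV hp hF hQ z s, Finset.mul_sum]
      rw [integral_finsetSum _ fun k _ =>
        hk.integrable (dbar_smooth (VV_smooth hF hQ z s k) k).continuous]
      exact Finset.sum_congr rfl fun k _ => cut_ibp hk (VV_smooth hF hQ z s k) k
    rw [e1]
    have e2 : ∀ k ∈ (Finset.univ : Finset (Fin n)),
        ‖-∫ w, dbar k (kap R) w * VV F Q z s k w‖ ≤ M / R * C * I0 := by
      intro k _
      rw [norm_neg, hI0, ← integral_const_mul]
      refine norm_integral_le_of_norm_le (hint.const_mul _) (Eventually.of_forall fun w => ?_)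
      rw [norm_mul, mul_assoc]
      exact mul_le_mul (hMk R hR k w) (hV s hs k w) (norm_nonneg _) (by positivity)
    refine (norm_sum_le _ _).trans ((Finset.sum_le_sum e2).trans (le_of_eq ?_))
    rw [Finset.sum_const, Finset.card_univ, Fintype.card_fin, nsmul_eq_mul]
  have hdiff : ∀ R : ℝ, 0 < R → ‖(∫ w, kap R w * Th F Q z T w) - ∫ w, kap R w * Th F Q z 0 w‖ ≤
      n * (M / R * C * I0) * (T - 0) := by
    intro R hR
    exact norm_image_sub_le_of_norm_deriv_le_segment'
      (fun s _ => (g_deriv hF hQ z hR s).hasDerivWithinAt)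
      (fun s hs => hder R hR s (Set.Ico_subset_Icc_self hs)) T (Set.right_mem_Icc.2 hT)
  have hlim : ∀ s : ℝ, 0 ≤ s → Tendsto (fun N : ℕ => ∫ w, kap ((N : ℝ) + 1) w * Th F Q z s w)
      atTop (𝓝 (∫ w, Th F Q z s w)) := by
    intro s hs
    obtain ⟨C', hC', hb⟩ := Th_bound hJ F z s hs
    have hc : Continuous (Th F Q z s) := (Th_cont hF hQ z).comp (Continuous.prodMk_right s)
    refine tendsto_integral_of_dominated_convergence
      (fun w => C' * ((1 + ‖w‖) * ‖EE F Q z w‖)) ?_ (hint.const_mul _) ?_ ?_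
    · intro N
      have hN : (0 : ℝ) < (N : ℝ) + 1 := by positivity
      exact ((kap_TT (n := n) hN).sm.continuous.mul hc).aestronglyMeasurable
    · intro N
      refine Eventually.of_forall fun w => ?_
      rw [norm_mul]
      calc ‖kap ((N : ℝ) + 1) w‖ * ‖Th F Q z s w‖ ≤ 1 * ‖Th F Q z s w‖ := by
            gcongr
            exact kap_le _ _
        _ ≤ _ := by rw [one_mul]; exact hb w
    · refine Eventually.of_forall fun w => ?_
      have := (kap_tendsto w).mul_const (Th F Q z s w)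
      simpa using this
  have h1 := (hlim T hT).sub (hlim 0 le_rfl)
  have h2 : Tendsto (fun N : ℕ => (∫ w, kap ((N : ℝ) + 1) w * Th F Q z T w) -
      ∫ w, kap ((N : ℝ) + 1) w * Th F Q z 0 w) atTop (𝓝 0) := by
    refine squeeze_zero_norm (a := fun N : ℕ => n * (M * C * I0) * T * (1 / ((N : ℝ) + 1)))
      (fun N => ?_) ?_
    · have hN : (0 : ℝ) < (N : ℝ) + 1 := by positivity
      refine (hdiff _ hN).trans (le_of_eq ?_)
      field_simp
      ring
    · have := (tendsto_one_div_add_atTop_nhds_zero_nat (𝕜 := ℝ)).const_mul (n * (M * C * I0) * T)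
      simpa using this
  exact sub_eq_zero.1 (tendsto_nhds_unique h1 h2)

/-- the rescaled integrand -/
noncomputable def GG (F : En n → ℂ) (Q : En n → En n) (z : En n) (r : ℝ) (x : En n) : ℂ :=
  F (z + r • x) * cexp (-(r * ∑ j, Q (z + r • x) j * x j)) * cexp (-((∑ j, ‖x j‖ ^ 2 : ℝ) : ℂ)) *
    (((r : ℂ) ^ 2) • JM Q (z + r • x) + (1 : Matrix (Fin n) (Fin n) ℂ)).det

theorem rescale (F : En n → ℂ) (Q : En n → En n) (z : En n) {r : ℝ} (hr : 0 < r) :
    ∫ x, GG F Q z r x = ∫ w, Th F Q z (1 / r ^ 2) w := by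
  have h1 : ∀ x, GG F Q z r x = (r : ℂ) ^ (2 * n) * Th F Q z (1 / r ^ 2) (z + r • x) := by
    intro x
    have hr' : (r : ℂ) ≠ 0 := by exact_mod_cast hr.ne'
    have hn : nsq z (z + r • x) = r ^ 2 * ∑ j, ‖x j‖ ^ 2 := by
      unfold nsq
      rw [Finset.mul_sum]
      refine Finset.sum_congr rfl fun j _ => ?_
      rw [Pi.add_apply, Pi.smul_apply, add_sub_cancel_left, norm_smul, mul_pow, Real.norm_eq_abs,
        sq_abs]
    have e1 : EE F Q z (z + r • x) = F (z + r • x) * cexp (-(r * ∑ j, Q (z + r • x) j * x j)) := by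
      unfold EE SS
      congr 2
      rw [Finset.mul_sum, ← Finset.sum_neg_distrib]
      refine Finset.sum_congr rfl fun j _ => ?_
      rw [Pi.add_apply, Pi.smul_apply, Complex.real_smul]
      ring
    have e2 : cexp (-(((1 / r ^ 2 : ℝ) : ℂ) * (nsq z (z + r • x) : ℂ))) =
        cexp (-((∑ j, ‖x j‖ ^ 2 : ℝ) : ℂ)) := by
      congr 2
      rw [hn, ← Complex.ofReal_mul]
      congr 1
      field_simp
    have e3 : (((r : ℂ) ^ 2) • JM Q (z + r • x) + (1 : Matrix (Fin n) (Fin n) ℂ)).det =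
        (r : ℂ) ^ (2 * n) * (MT Q (1 / r ^ 2) (z + r • x)).det := by
      have e4 : ((r : ℂ) ^ 2) • JM Q (z + r • x) + (1 : Matrix (Fin n) (Fin n) ℂ) =
          ((r : ℂ) ^ 2) • MT Q (1 / r ^ 2) (z + r • x) := by
        unfold MT
        rw [smul_add, smul_smul]
        congr 1
        have e5 : (r : ℂ) ^ 2 * ((1 / r ^ 2 : ℝ) : ℂ) = 1 := by
          push_cast
          field_simp
        rw [e5, one_smul]
      rw [e4, Matrix.det_smul, Fintype.card_fin, ← pow_mul]
    unfold GG Th
    rw [e1, e2, e3]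
    ring
  simp_rw [h1]
  rw [integral_const_mul]
  have h2 : ∫ x : En n, Th F Q z (1 / r ^ 2) (z + r • x) =
      |(r ^ Module.finrank ℝ (En n))⁻¹| • ∫ x, Th F Q z (1 / r ^ 2) (z + x) :=
    Measure.integral_comp_smul volume (fun x => Th F Q z (1 / r ^ 2) (z + x)) r
  rw [h2, integral_add_left_eq_self]
  have h3 : Module.finrank ℝ (En n) = 2 * n := by
    rw [Module.finrank_pi_fintype]
    simp [Complex.finrank_real_complex, mul_comm]
  rw [h3, abs_of_pos (by positivity), Complex.real_smul]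
  have hr' : (r : ℂ) ≠ 0 := by exact_mod_cast hr.ne'
  push_cast
  field_simp

theorem GG_cont {F : En n → ℂ} (hF : Differentiable ℂ F) {Q : En n → En n}
    (hQ : ContDiff ℝ ∞ Q) (z : En n) : Continuous (fun p : ℝ × En n => GG F Q z p.1 p.2) := by
  unfold GG
  have h0 : Continuous (fun p : ℝ × En n => z + p.1 • p.2) := by fun_prop
  have h1 : Continuous (fun p : ℝ × En n => F (z + p.1 • p.2)) := hF.continuous.comp h0
  have h2 : ∀ j, Continuous (fun p : ℝ × En n => Q (z + p.1 • p.2) j) :=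
    fun j => (comp_smooth hQ j).continuous.comp h0
  have h3 : Continuous (fun p : ℝ × En n => JM Q (z + p.1 • p.2)) :=
    continuous_matrix fun i j => (JM_elem_smooth hQ i j).continuous.comp h0
  have hr : Continuous (fun p : ℝ × En n => (p.1 : ℂ)) := Complex.continuous_ofReal.comp continuous_fst
  refine ((h1.mul ?_).mul ?_).mul ?_
  · refine Complex.continuous_exp.comp (Continuous.neg (hr.mul ?_))
    exact continuous_finsetSum _ fun j _ => (h2 j).mul ((continuous_apply j).comp continuous_snd)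
  · refine Complex.continuous_exp.comp (Continuous.neg (Complex.continuous_ofReal.comp ?_))
    exact continuous_finsetSum _ fun j _ =>
      (((continuous_apply j).comp continuous_snd).norm).pow 2
  · exact (((hr.pow 2).smul h3).add continuous_const).matrix_det

/-- one variable Gaussian integrals -/
theorem gauss1 : ∫ ζ : ℂ, cexp (-((‖ζ‖ ^ 2 : ℝ) : ℂ)) = Real.pi := by
  have h := GaussianFourier.integral_rexp_neg_mul_sq_norm (V := ℂ) (b := 1) one_pos
  rw [Complex.finrank_real_complex] at h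
  have h1 : ∫ ζ : ℂ, cexp (-((‖ζ‖ ^ 2 : ℝ) : ℂ)) = ((∫ v : ℂ, Real.exp (-1 * ‖v‖ ^ 2) : ℝ) : ℂ) := by
    rw [← integral_complex_ofReal]
    refine integral_congr_ae (Eventually.of_forall fun v => ?_)
    simp
  rw [h1, h]
  norm_num

theorem gauss_int {b : ℝ} (hb : 0 < b) : Integrable (fun ζ : ℂ => Real.exp (-b * ‖ζ‖ ^ 2)) := by
  have h := GaussianFourier.integrable_cexp_neg_mul_sq_norm_add (V := ℂ) (b := (b : ℂ))
    (by simpa using hb) 0 0
  have h2 := h.norm
  refine h2.congr (Eventually.of_forall fun v => ?_)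
  simp only [zero_mul, add_zero]
  rw [Complex.norm_exp]
  congr 1
  norm_cast

end Pool.Agent.TH241.J218
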